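import Pool.Agent.Helper3.TP.St
import Pool.Agent.Helper3.TL.M_START1
import Pool.Agent.Helper80.TL.M_FAM2
import Pool.Agent.Helper80.TL.M_FAM4

/-! Project TP (MP_86d903), module FINE. -/

set_option autoImplicit false

open Finset
open MP86d903 (Valid Lit inside mem_inside pt flip Clause Ineq clauseIneq vsF ngF lit_congr lit_flip)
open Helper80.SR (Exp Closed Cl Sm)
open Helper3.TL Helper3.TP

namespace Pool.Agent.Helper24.TP

theorem hFine (hF : PFar3) (hS : PScat) (hG : PGreedy) : PFine := by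
  intro ι V _ _ _ _ vs ng q D κ f A Y ρY Q s b hE hκ hAY hY hQ hcard
  classical
  obtain ⟨i, hi, hdis⟩ := hG ι V vs q D κ f A Q hE hκ (fun k j hj => (hQ k j hj).1) hcard
  set W : Fin f → Finset V := fun k => Cl vs q (insert (i k) A) \ A with hW
  have hWA : ∀ k, Disjoint (W k) A := fun k => sdiff_disjoint
  have hWc : ∀ k, (W k).card ≤ 3 := fun k => card_class_le hClo1 hE (i k) hκ
  have hAW : ∀ k, A ∪ W k = Cl vs q (insert (i k) A) := fun k => union_class (i k)
  have hfar : ∀ k, Disjoint (W k) (near vs A 93 (Y \ A)) := fun k => (hQ k (i k) (hi k)).2.1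
  have hWY : ∀ k, Disjoint (W k) Y := fun k => Helper80.TL.disj_of_near (hWA k) (hfar k)
  have hF3 : ∀ k, Closed vs q (Y ∪ W k) ∧ ∀ c, vs c ⊆ Y ∪ W k → vs c ⊆ Y ∨ vs c ⊆ A ∪ W k :=
    fun k => hF ι V vs q D κ A Y (W k) hE hAY hY (hWA k) (hWc k)
      (by rw [hAW]; exact Helper80.SR.closed_Cl q _) (hfar k)
  have hd : ∀ k l, k ≠ l → Disjoint (near vs A 10 (W k)) (near vs A 10 (W l)) := hdis
  have hWW : ∀ k l, k ≠ l → Disjoint (W k) (W l) := fun k l h =>
    (hd k l h).mono (Helper80.TL.near_mono_right (Nat.zero_le 10) _)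
      (Helper80.TL.near_mono_right (Nat.zero_le 10) _)
  have hcl : Closed vs q (Y ∪ univ.biUnion W) :=
    hS ι V vs q f A Y W hAY hY (fun k => ⟨hWY k, hWc k, (hF3 k).1⟩) hd
  -- the assignment
  set s' : Fin f → V → Bool := fun k v => if b k then s k (i k) v else !s k (i k) v with hs'
  set σ : V → Bool := fun v => if h : ∃ k, v ∈ W k then s' h.choose v else ρY v with hσ
  have hσW : ∀ k, ∀ v ∈ W k, σ v = s' k v := by
    intro k v hv
    have h : ∃ k, v ∈ W k := ⟨k, hv⟩
    have e : h.choose = k := by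
      by_contra hne
      exact Finset.disjoint_left.mp (hWW _ _ hne) h.choose_spec hv
    simp only [hσ, dif_pos h]
    rw [e]
  have hσY : ∀ v ∈ Y, σ v = ρY v := by
    intro v hv
    have h : ¬ ∃ k, v ∈ W k := by
      rintro ⟨k, hk⟩
      exact Finset.disjoint_left.mp (hWY k) hk hv
    simp only [hσ, dif_neg h]
  have hs'sg : ∀ k v, sg (s' k v) = sg (b k) * sg (s k (i k) v) := by
    intro k v
    simp only [hs']
    cases b k <;> cases s k (i k) v <;> simp [sg]
  have hbalW : ∀ k, Bal vs ng A (A ∪ W k) (s' k) := by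
    intro k
    have h0 : Bal vs ng A (A ∪ W k) (s k (i k)) := by
      rw [hAW]
      exact (hQ k (i k) (hi k)).2.2
    cases hb : b k
    · have e : s' k = fun v => !s k (i k) v := by
        funext v
        simp [hs', hb]
      rw [e]
      exact h0.compl
    · have e : s' k = s k (i k) := by
        funext v
        simp [hs', hb]
      rw [e]
      exact h0
  have hbal : Bal vs ng Y (Y ∪ univ.biUnion W) σ := by
    intro c hc hcY
    obtain ⟨v, hv, hvY⟩ := Finset.not_subset.mp hcY
    obtain ⟨k, hvk⟩ : ∃ k, v ∈ W k := by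
      rcases mem_union.mp (hc hv) with h | h
      · exact absurd h hvY
      · obtain ⟨k, -, hk⟩ := mem_biUnion.mp h
        exact ⟨k, hk⟩
    have hcYW : vs c ⊆ Y ∪ W k := by
      intro u hu
      rcases mem_union.mp (hc hu) with h | h
      · exact mem_union_left _ h
      · obtain ⟨l, -, hl⟩ := mem_biUnion.mp h
        by_cases hlk : l = k
        · rw [hlk] at hl
          exact mem_union_right _ hl
        · exfalso
          have hu1 : u ∈ near vs A 10 (W l) := Helper80.TL.near_mono_right (Nat.zero_le 10) _ hl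
          have hu2 : u ∈ near vs A 1 (W k) := by
            rw [Helper80.TL.near_succ, Helper80.TL.near_zero, Helper80.TL.mem_nb]
            exact Or.inr ⟨⟨c, ⟨v, hv, hvk⟩, hu⟩, Finset.disjoint_left.mp (hWA l) hl⟩
          exact Finset.disjoint_left.mp (hd l k hlk) hu1
            (Helper80.TL.near_mono_right (by norm_num) _ hu2)
    have hcA : ¬ vs c ⊆ A := fun h => hcY (h.trans hAY)
    have hcAW : vs c ⊆ A ∪ W k := by
      rcases (hF3 k).2 c hcYW with h | h
      · exact absurd h hcY
      · exact h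
    obtain ⟨i', hi', j', hj', hli, hlj⟩ := hbalW k c hcAW hcA
    have hU : ∀ u, u ∈ vs c \ A → u ∈ W k := by
      intro u hu
      rcases mem_union.mp (hcAW (mem_sdiff.mp hu).1) with h | h
      · exact absurd h (mem_sdiff.mp hu).2
      · exact h
    have hnY : ∀ u, u ∈ vs c \ A → u ∈ vs c \ Y := fun u hu =>
      mem_sdiff.mpr ⟨(mem_sdiff.mp hu).1, fun h => Finset.disjoint_left.mp (hWY k) (hU u hu) h⟩
    exact ⟨i', hnY i' hi', j', hnY j' hj', lit_congr (hσW k i' (hU i' hi')).symm hli,
      fun h => hlj (lit_congr (hσW k j' (hU j' hj')) h)⟩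
  have hsub : Y ⊆ Y ∪ univ.biUnion W := subset_union_left
  refine ⟨i, Y ∪ univ.biUnion W, σ, hi, ⟨hsub, hcl, ?_, hσY, hbal⟩, ?_⟩
  · have h1 : (Y ∪ univ.biUnion W) \ A ⊆ (Y \ A) ∪ univ.biUnion W := by
      intro v hv
      obtain ⟨h2, h3⟩ := mem_sdiff.mp hv
      rcases mem_union.mp h2 with h | h
      · exact mem_union_left _ (mem_sdiff.mpr ⟨h, h3⟩)
      · exact mem_union_right _ h
    have h2 := (card_le_card h1).trans (card_union_le _ _)
    have h3 := card_biUnion_le_card_mul univ W 3 (fun k _ => hWc k)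
    rw [card_univ, Fintype.card_fin] at h3
    omega
  · intro a c
    rw [Helper80.TL.lv_ext hsub hσY a c]
    have h1 : (Y ∪ univ.biUnion W) \ Y = univ.biUnion W := by
      rw [union_sdiff_left]
      refine sdiff_eq_self_of_disjoint ?_
      rw [Finset.disjoint_biUnion_left]
      exact fun k _ => hWY k
    rw [h1, sum_biUnion (fun k _ l _ h => hWW k l h)]
    congr 1
    refine sum_congr rfl (fun k _ => ?_)
    rw [mul_sum]
    refine sum_congr rfl (fun v hv => ?_)
    rw [hσW k v hv, hs'sg k v]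
    ring

end Pool.Agent.Helper24.TP
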