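import Pool.Agent.Helper49.TP.StM

/-! Module P3a of project TP (vertex functions are nearly constant). -/

set_option autoImplicit false

namespace Pool.Agent.Helper24.TP

open Finset Pool.Agent.Helper49.TP Pool.Agent.Helper93.IA Pool.Agent.Helper38.IA

section

private lemma cnt2 {β : Type} [Fintype β] (p q : β → Prop) [DecidablePred p] [DecidablePred q] :
    Fintype.card β ≤ (univ.filter fun b => p b ∧ q b).card + (univ.filter fun b => ¬ p b).card
      + (univ.filter fun b => ¬ q b).card := by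
  classical
  rw [← Finset.card_univ]
  refine le_trans (card_le_card (t := (univ.filter fun b => p b ∧ q b) ∪
    (univ.filter fun b => ¬ p b) ∪ (univ.filter fun b => ¬ q b)) ?_) ?_
  · intro b _
    simp only [mem_union, mem_filter, mem_univ, true_and]
    tauto
  · exact le_trans (card_union_le _ _) (Nat.add_le_add_right (card_union_le _ _) _)

private lemma cnt3 {β : Type} [Fintype β] (p q r : β → Prop) [DecidablePred p] [DecidablePred q]
    [DecidablePred r] :
    Fintype.card β ≤ (univ.filter fun b => p b ∧ q b ∧ r b).card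
      + (univ.filter fun b => ¬ p b).card + (univ.filter fun b => ¬ q b).card
      + (univ.filter fun b => ¬ r b).card := by
  classical
  rw [← Finset.card_univ]
  refine le_trans (card_le_card (t := (univ.filter fun b => p b ∧ q b ∧ r b) ∪
    (univ.filter fun b => ¬ p b) ∪ (univ.filter fun b => ¬ q b) ∪
    (univ.filter fun b => ¬ r b)) ?_) ?_
  · intro b _
    simp only [mem_union, mem_filter, mem_univ, true_and]
    tauto
  · exact le_trans (card_union_le _ _) (Nat.add_le_add_right (le_trans (card_union_le _ _)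
      (Nat.add_le_add_right (card_union_le _ _) _)) _)

variable {α β γ : Type} [Fintype α] [Fintype β] [Fintype γ] [DecidableEq α] [DecidableEq β]
    [DecidableEq γ]

private lemma pair (n : ℕ) (A : Finset (α × β)) (B : Finset (β × γ)) (C : Finset (γ × α))
    (P : α → ℝ) (Q : β → ℝ) (S : γ → ℝ) (hβ : Fintype.card β = n) (hγ : Fintype.card γ = n)
    (hM : Mis A B C (n / 4)) (a a' : α) :
    (n : ℝ) ^ 2 / 8 * |P a - P a'| ≤
      (∑ b, ∑ c, if (a, b) ∈ A ∧ (b, c) ∈ B ∧ (c, a) ∈ C then |P a + Q b + S c| else 0) +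
      ∑ b, ∑ c, if (a', b) ∈ A ∧ (b, c) ∈ B ∧ (c, a') ∈ C then |P a' + Q b + S c| else 0 := by
  obtain ⟨⟨hA1, -⟩, ⟨hB1, -⟩, -, hC2⟩ := hM
  have hn0 : (0 : ℝ) ≤ n := Nat.cast_nonneg n
  have hb : (n : ℝ) / 2 ≤ ((univ.filter fun b : β => (a, b) ∈ A ∧ (a', b) ∈ A).card : ℝ) := by
    have h := cnt2 (fun b : β => (a, b) ∈ A) (fun b : β => (a', b) ∈ A)
    rw [hβ] at h
    have h' : (n : ℝ) ≤ ((univ.filter fun b : β => (a, b) ∈ A ∧ (a', b) ∈ A).card : ℝ)
        + ((univ.filter fun b : β => ¬ (a, b) ∈ A).card : ℝ)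
        + ((univ.filter fun b : β => ¬ (a', b) ∈ A).card : ℝ) := by exact_mod_cast h
    have h1 : ((univ.filter fun b : β => ¬ (a, b) ∈ A).card : ℝ) ≤ n / 4 := hA1 a
    have h2 : ((univ.filter fun b : β => ¬ (a', b) ∈ A).card : ℝ) ≤ n / 4 := hA1 a'
    linarith
  have hc : ∀ b : β, (n : ℝ) / 4 ≤
      ((univ.filter fun c : γ => (b, c) ∈ B ∧ (c, a) ∈ C ∧ (c, a') ∈ C).card : ℝ) := by
    intro b
    have h := cnt3 (fun c : γ => (b, c) ∈ B) (fun c : γ => (c, a) ∈ C) (fun c : γ => (c, a') ∈ C)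
    rw [hγ] at h
    have h' : (n : ℝ) ≤ ((univ.filter fun c : γ => (b, c) ∈ B ∧ (c, a) ∈ C ∧ (c, a') ∈ C).card : ℝ)
        + ((univ.filter fun c : γ => ¬ (b, c) ∈ B).card : ℝ)
        + ((univ.filter fun c : γ => ¬ (c, a) ∈ C).card : ℝ)
        + ((univ.filter fun c : γ => ¬ (c, a') ∈ C).card : ℝ) := by exact_mod_cast h
    have h1 : ((univ.filter fun c : γ => ¬ (b, c) ∈ B).card : ℝ) ≤ n / 4 := hB1 b
    have h2 : ((univ.filter fun c : γ => ¬ (c, a) ∈ C).card : ℝ) ≤ n / 4 := hC2 a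
    have h3 : ((univ.filter fun c : γ => ¬ (c, a') ∈ C).card : ℝ) ≤ n / 4 := hC2 a'
    linarith
  have hx : 0 ≤ |P a - P a'| := abs_nonneg _
  have step1 : (n : ℝ) ^ 2 / 8 * |P a - P a'| ≤
      ∑ b ∈ univ.filter (fun b : β => (a, b) ∈ A ∧ (a', b) ∈ A),
        ∑ c ∈ univ.filter (fun c : γ => (b, c) ∈ B ∧ (c, a) ∈ C ∧ (c, a') ∈ C),
          |P a - P a'| := by
    have h1 : ∀ b ∈ univ.filter (fun b : β => (a, b) ∈ A ∧ (a', b) ∈ A),
        (n : ℝ) / 4 * |P a - P a'| ≤
        ∑ c ∈ univ.filter (fun c : γ => (b, c) ∈ B ∧ (c, a) ∈ C ∧ (c, a') ∈ C),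
          |P a - P a'| := by
      intro b _
      rw [sum_const, nsmul_eq_mul]
      exact mul_le_mul_of_nonneg_right (hc b) hx
    refine le_trans ?_ (sum_le_sum h1)
    rw [sum_const, nsmul_eq_mul]
    have h2 : (n : ℝ) / 2 * ((n : ℝ) / 4 * |P a - P a'|) ≤
        ((univ.filter fun b : β => (a, b) ∈ A ∧ (a', b) ∈ A).card : ℝ) *
          ((n : ℝ) / 4 * |P a - P a'|) :=
      mul_le_mul_of_nonneg_right hb (mul_nonneg (by positivity) hx)
    calc (n : ℝ) ^ 2 / 8 * |P a - P a'| = (n : ℝ) / 2 * ((n : ℝ) / 4 * |P a - P a'|) := by ring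
      _ ≤ _ := h2
  refine le_trans step1 ?_
  rw [← sum_add_distrib, sum_filter]
  refine sum_le_sum fun b _ => ?_
  rw [← sum_add_distrib]
  by_cases hab : (a, b) ∈ A ∧ (a', b) ∈ A
  · rw [if_pos hab, sum_filter]
    refine sum_le_sum fun c _ => ?_
    by_cases hcc : (b, c) ∈ B ∧ (c, a) ∈ C ∧ (c, a') ∈ C
    · rw [if_pos hcc, if_pos ⟨hab.1, hcc.1, hcc.2.1⟩, if_pos ⟨hab.2, hcc.1, hcc.2.2⟩]
      have h := abs_sub (P a + Q b + S c) (P a' + Q b + S c)
      have e : (P a + Q b + S c) - (P a' + Q b + S c) = P a - P a' := by ring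
      rw [e] at h
      exact h
    · rw [if_neg hcc]
      refine add_nonneg ?_ ?_
      · split_ifs
        · exact abs_nonneg _
        · exact le_rfl
      · split_ifs
        · exact abs_nonneg _
        · exact le_rfl
  · rw [if_neg hab]
    refine sum_nonneg fun c _ => add_nonneg ?_ ?_
    · split_ifs
      · exact abs_nonneg _
      · exact le_rfl
    · split_ifs
      · exact abs_nonneg _
      · exact le_rfl

end

theorem hP3a : StP3a := by
  intro α β γ _ _ _ _ _ _ n A B C P Q S hn hα hβ hγ hM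
  have hn0 : (0 : ℝ) < n := by exact_mod_cast hn
  set T : α → ℝ := fun a => ∑ b, ∑ c, if (a, b) ∈ A ∧ (b, c) ∈ B ∧ (c, a) ∈ C then
    |P a + Q b + S c| else 0 with hT
  have hX : ST A B C (fun a b c => P a + Q b + S c) = ∑ a, T a := rfl
  rw [hX]
  have hsum : ∑ z, ∑ a, |P a - P z| ≤ ∑ _z : α, 16 / (n : ℝ) ^ 2 * ∑ a, T a := by
    have h1 : ∀ z a : α, |P a - P z| ≤ 8 / (n : ℝ) ^ 2 * (T a + T z) := by
      intro z a
      have h := pair n A B C P Q S hβ hγ hM a z
      have h' : (n : ℝ) ^ 2 / 8 * |P a - P z| ≤ T a + T z := h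
      have hp : (0 : ℝ) < 8 / (n : ℝ) ^ 2 := by positivity
      calc |P a - P z| = 8 / (n : ℝ) ^ 2 * ((n : ℝ) ^ 2 / 8 * |P a - P z|) := by
            field_simp
        _ ≤ 8 / (n : ℝ) ^ 2 * (T a + T z) := mul_le_mul_of_nonneg_left h' hp.le
    have h2 : ∑ z : α, ∑ a, |P a - P z| ≤ ∑ z : α, ∑ a, 8 / (n : ℝ) ^ 2 * (T a + T z) :=
      sum_le_sum fun z _ => sum_le_sum fun a _ => h1 z a
    refine le_trans h2 (le_of_eq ?_)
    have h3 : ∀ z : α, ∑ a, 8 / (n : ℝ) ^ 2 * (T a + T z) =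
        8 / (n : ℝ) ^ 2 * ((∑ a, T a) + n * T z) := by
      intro z
      rw [← mul_sum, sum_add_distrib, sum_const, card_univ, hα, nsmul_eq_mul]
    rw [sum_congr rfl fun z _ => h3 z, ← mul_sum, sum_add_distrib, ← mul_sum, sum_const, sum_const,
      card_univ, hα, nsmul_eq_mul, nsmul_eq_mul]
    ring
  haveI : Nonempty α := by
    rw [← Fintype.card_pos_iff, hα]
    exact hn
  obtain ⟨z, _, hz⟩ := exists_le_of_sum_le (s := (univ : Finset α)) univ_nonempty hsum
  exact ⟨P z, hz⟩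

end Pool.Agent.Helper24.TP
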