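import Pool.Agent.Helper3.TP.St
import Pool.Agent.Helper3.TL.M_START1
import Pool.Agent.Helper80.TL.M_FAM2

/-! Project TP (MP_86d903), module VPOP. -/

set_option autoImplicit false

open Finset
open MP86d903 (Valid Lit inside mem_inside pt flip Clause Ineq clauseIneq vsF ngF)
open Helper80.SR (Exp Closed Cl Sm)
open Helper3.TL Helper3.TP

namespace Pool.Agent.Helper24.TP

theorem hVpop : PVpop := by
  intro ι V _ _ _ _ vs ng q D κ B T A ρ a hE hκ ha hN
  classical
  obtain ⟨c1, c2⟩ := Helper80.TL.hFam2 ι V vs q D κ A hE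
  have hAc : Closed vs q A := hE.closed'
  have hA0 : (A \ A).card ≤ κ := by simp
  set n' := 3 * B * T + 1 with hn'
  set z := n' * 3 with hz
  have hBad : ∀ i ∈ bad vs ng q A ρ a 0, i ∉ A ∧ ∃ σ₁, Ext vs ng q A 3 A ρ (Cl vs q (insert i A)) σ₁ ∧
      ∑ j ∈ Cl vs q (insert i A) \ A, a j * sg (σ₁ j) ≠ 0 := by
    intro i hi
    unfold bad at hi
    rw [mem_filter] at hi
    obtain ⟨-, h1, σ₁, h2, h3⟩ := hi
    exact ⟨h1, σ₁, h2, fun h0 => h3 (by rw [h0]; exact dvd_zero _)⟩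
  -- one gadget avoiding `Z`
  have step : ∀ Z : Finset V, Z.card ≤ z → ∃ U : Finset V, ∃ b : (V → Bool) × ℤ,
      (1 ≤ b.2 ∧ b.2 ≤ 3 * B ∧ Gadget vs ng q A 3 a a b.2 b.2 U b.1) ∧ Disjoint U Z := by
    intro Z hZ
    obtain ⟨i, hi, hdis⟩ : ∃ i ∈ bad vs ng q A ρ a 0, Disjoint (Cl vs q (insert i A) \ A) Z := by
      by_contra hno
      push Not at hno
      have hsub : bad vs ng q A ρ a 0 ⊆ Z.biUnion (fun j => Cl vs q (insert j A) \ A) := by
        intro i hi
        have h1 := hno i hi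
        rw [Finset.not_disjoint_iff] at h1
        obtain ⟨j, hj1, hj2⟩ := h1
        have h2 := c1 A i j (subset_refl A) hAc hA0 (mem_sdiff.mp hj1).1 (mem_sdiff.mp hj1).2
        refine mem_biUnion.mpr ⟨j, hj2, mem_sdiff.mpr ⟨?_, (hBad i hi).1⟩⟩
        rw [h2]
        exact mem_cl_insert i A
      have h3 := (card_le_card hsub).trans (card_biUnion_le_card_mul _ _ 3
        (fun j _ => card_class_le hClo1 hE j hκ))
      omega
    obtain ⟨hiA, σ₁, hσ₁, hnz⟩ := hBad i hi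
    set W := Cl vs q (insert i A) \ A with hW
    have hWc : W.card ≤ 3 := card_class_le hClo1 hE i hκ
    set x := ∑ j ∈ W, a j * sg (σ₁ j) with hx
    have hxb : |x| ≤ 3 * B := by
      have h1 : |x| ≤ B * W.card := sum_sg_le ha σ₁
      have h2 : (B : ℤ) * (W.card : ℤ) ≤ B * 3 := by
        refine mul_le_mul_of_nonneg_left ?_ (Int.natCast_nonneg B)
        exact_mod_cast hWc
      linarith
    have hAW : A ∪ W = Cl vs q (insert i A) := union_class i
    have hGad : Gadget vs ng q A 3 a a x x W σ₁ :=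
      ⟨sdiff_disjoint, hWc, by rw [hAW]; exact Helper80.SR.closed_Cl q _,
        by rw [hAW]; exact hσ₁.2.2.2.2, rfl, rfl⟩
    have hb := abs_le.mp hxb
    by_cases hpos : 0 < x
    · exact ⟨W, (σ₁, x), ⟨hpos, hb.2, hGad⟩, hdis⟩
    · refine ⟨W, (fun v => !σ₁ v, -x), ⟨?_, ?_, hGad.compl⟩, hdis⟩
      · change 1 ≤ -x
        omega
      · change -x ≤ 3 * (B : ℤ)
        omega
  obtain ⟨U, b, hU, hQ⟩ := exists_family (fun (U : Finset V) (b : (V → Bool) × ℤ) =>
    1 ≤ b.2 ∧ b.2 ≤ 3 * B ∧ Gadget vs ng q A 3 a a b.2 b.2 U b.1) 3 n'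
    (fun U b h => h.2.2.2.1) step
  obtain ⟨y, hy, hlt⟩ := Finset.exists_lt_card_fiber_of_mul_lt_card_of_maps_to
    (s := (univ : Finset (Fin n'))) (t := Finset.Icc (1 : ℤ) (3 * B))
    (f := fun i => (b i).2) (n := T) (fun i _ => Finset.mem_Icc.mpr ⟨(hQ i).1, (hQ i).2.1⟩)
    (by
      rw [Int.card_Icc, card_univ, Fintype.card_fin]
      have h3 : ((3 : ℤ) * B + 1 - 1).toNat = 3 * B := by omega
      rw [h3, hn']
      omega)
  rw [Finset.mem_Icc] at hy
  set S := univ.filter (fun i => (b i).2 = y) with hS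
  have hle : T ≤ S.card := hlt.le
  refine ⟨y, hy.1, hy.2, fun i => U (S.orderEmbOfFin rfl (Fin.castLE hle i)),
    fun i => (b (S.orderEmbOfFin rfl (Fin.castLE hle i))).1, ?_, ?_⟩
  · intro i j hij
    refine hU _ _ (fun h => hij ?_)
    exact Fin.castLE_injective hle ((S.orderEmbOfFin rfl).injective h)
  · intro i
    have h4 : S.orderEmbOfFin rfl (Fin.castLE hle i) ∈ S := Finset.orderEmbOfFin_mem _ _ _
    have h5 := (mem_filter.mp h4).2
    have h6 := (hQ (S.orderEmbOfFin rfl (Fin.castLE hle i))).2.2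
    rw [h5] at h6
    exact h6

end Pool.Agent.Helper24.TP
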